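import Mathlib

/-!
# Extremal hyperplanes: common definitions (MP_30cf1a_an)
-/

namespace R243KH

/-- positive part of a vector -/
def pp {n : ℕ} (x : Fin n → ℝ) : Fin n → ℝ := fun i => max (x i) 0

/-- negative part of a vector -/
def nn {n : ℕ} (x : Fin n → ℝ) : Fin n → ℝ := fun i => max (-x i) 0

/-- `al e v = ∑ v i (1 - (v i / s)^{e i})`, where `s = ∑ v j`. -/
noncomputable def al {n : ℕ} (e v : Fin n → ℝ) : ℝ :=
  ∑ i, v i * (1 - (v i / ∑ j, v j) ^ (e i))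

/-- half the harmonic mean (with the convention `0/0=0`) -/
noncomputable def hm (a b : ℝ) : ℝ := a * b / (a + b)

/-- the norm -/
noncomputable def NN {n : ℕ} (e : Fin n → ℝ) (l₁ l₂ : ℝ) (x : Fin n → ℝ) : ℝ :=
  ∑ i, |x i| - l₁ * hm (al e (pp x)) (al e (nn x)) - l₂ * hm (al 1 (pp x)) (al 1 (nn x))

/-- `N` is a norm on `ℝⁿ`. -/
def IsNorm {n : ℕ} (N : (Fin n → ℝ) → ℝ) : Prop :=
  (∀ x, N x = 0 → x = 0) ∧ (∀ x y, N (x + y) ≤ N x + N y) ∧ ∀ (c : ℝ) x, N (c • x) = |c| * N x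

/-- `P` is a linear projection of `ℝⁿ` onto `Y`. -/
def IsProj {n : ℕ} (P : (Fin n → ℝ) →ₗ[ℝ] (Fin n → ℝ)) (Y : Submodule ℝ (Fin n → ℝ)) : Prop :=
  (∀ x, P x ∈ Y) ∧ ∀ y ∈ Y, P y = y

/-- The relative projection constant `λ(Y, X)`, `X = (ℝⁿ, N)`: the infimum of the numbers `C` such
that some projection onto `Y` has operator norm at most `C`. -/
noncomputable def relProj {n : ℕ} (N : (Fin n → ℝ) → ℝ) (Y : Submodule ℝ (Fin n → ℝ)) : ℝ :=
  sInf {C : ℝ | ∃ P, IsProj P Y ∧ ∀ x, N (P x) ≤ C * N x}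

end R243KH
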